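import Pool.Agent.W5h83.FS.Final

/-!
# `ℓ²`-homology above half the dimension for flag spheres with few vertices and their full subcomplexes

Let `L` be a flag triangulation of the sphere of dimension `n - 1`, with graph `G`, and let `A` be a set of
vertices. The right-angled Coxeter group `W` of the full subcomplex `L[A]` (that is, of the graph `G.induce A`) acts
geometrically on a contractible `n`-manifold with boundary (a regular neighbourhood of its Davis complex in the Davis
manifold of `L`, if `L` is piecewise linear), so that its cocompact action dimension is at
most `n`. Q1 predicts that its `ℓ²`-homology vanishes in the degrees `i > n / 2`.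

We prove this for all `n` and all `A` if `L` has at most `(5 n + 2) / 2` vertices. (For example, the join of `m`
pentagons is a flag sphere with `n = 2 m` and `5 n / 2` vertices, which is not a suspension.)

`HSph n G`: the flag complex of `G` is a real homology manifold with the real homology of the
`(n-1)`-sphere (this includes all flag triangulations of the sphere). `L2Van H i`: there are no nonzero
`ℓ²` harmonic `i`-chains on the Davis complex of the right-angled Coxeter group of the graph `H`.
-/

set_option autoImplicit false

namespace Pool.Agent.Results.MP_ea75ba_gt.FewVertices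

open Pool.Agent.W907.SG Pool.Agent.TH652.Above

/-- Let the flag complex `L` of the finite graph `G` be a real homology `(n-1)`-sphere, with `N` vertices.
(1) If `i > n / 2` and `N ≤ 2 n + i` then the `ℓ²`-homology of the right-angled Coxeter group of every full
subcomplex of `L` vanishes in degree `i`.
(2) If `2 N ≤ 5 n + 2` then this holds in all the degrees `i > n / 2`, and
(3) the `ℓ²`-homology of the right-angled Coxeter group of `L` vanishes in all the degrees `i ≠ n / 2`. -/
theorem result : ∀ (n : ℕ) (V : Type) [Fintype V] [LinearOrder V] (G : SimpleGraph V), HSph n G →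
    (∀ (A : Set V) [Fintype ↥A] (i : ℕ), n < 2 * i → Fintype.card V ≤ 2 * n + i → L2Van (G.induce A) i) ∧
    (2 * Fintype.card V ≤ 5 * n + 2 → ∀ (A : Set V) [Fintype ↥A] (i : ℕ), n < 2 * i → L2Van (G.induce A) i) ∧
    (2 * Fintype.card V ≤ 5 * n + 2 → ∀ i : ℕ, 2 * i ≠ n → L2Van G i) := by
  intro n V _ _ G hS
  exact ⟨fun A _ i hi hc => Pool.Agent.W5h83.FS.above_few hS A i hi hc,
    fun hc A _ i hi => Pool.Agent.W5h83.FS.above_few hS A i hi (Pool.Agent.W5h83.FS.few_arith hc hi),
    fun hc i hi => Pool.Agent.W5h83.FS.singer_few hS hc i hi⟩

end Pool.Agent.Results.MP_ea75ba_gt.FewVertices
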