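import Pool.Agent.W5h83.GT.Num5

/-!
# A gluing inequality for the `ℓ²`-Betti numbers of right-angled Coxeter groups

Let `L` be a finite flag complex which is the union of two full subcomplexes `L[A]` and `L[B]`, and let `S` be their
intersection. The right-angled Coxeter group `W` of `L` is the amalgam `W_A *_{W_S} W_B` of the groups of `L[A]` and
`L[B]` over the group of `S`. Let `C[A]` be the union of `L[A]` and the cone over `S`, and `C[B]` the union of `L[B]`
and the cone over `S`. We prove
`b_i (L) ≤ b_i (C[A]) + b_i (C[B])` for all `i ≥ 1`,
where `b_i` is the `i`-th `ℓ²`-Betti number of the right-angled Coxeter group. Since the double `W_A *_{W_S} W_A` is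
a subgroup of index two in the group of `C[A]`, this says that
`b_i (W_A *_{W_S} W_B) ≤ (b_i (W_A *_{W_S} W_A) + b_i (W_B *_{W_S} W_B)) / 2`.

If `L` is a flag triangulated `(n-1)`-sphere and `S` is a full subcomplex which is an `(n-2)`-sphere then `C[A]` and
`C[B]` are flag `(n-1)`-spheres and `L` is their connected sum along links of vertices. So the vanishing of the
`ℓ²`-homology in a degree `i > n / 2` predicted by Q1 for `L` follows from the one for `C[A]` and `C[B]`. The
Mayer-Vietoris sequence only gives `b_i (L) ≤ b_i (L[A]) + b_i (L[B]) + b_{i-1} (S)`, where `b_{i-1} (S)` is not zero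
in general in the essential case of odd `n` and `i = (n + 1) / 2`.

The proof: for a finite set `X` with an action of the group of `L` and a colouring of `X` invariant under the group
of `S`, the kernels `K_A`, `K_B` of the homology of `S` with coefficients in `X` in the ones of `L[A]`, `L[B]`
satisfy `dim (K_A ∩ V) ≤ dim V / 2 + ...` for all subspaces `V` invariant under the projections to the colours. The
intersection of `K_A ^ F` and a twisted form of `K_B ^ F`, for a sufficiently free finite set `F` with involutions
for the colours, has at most the dimension `|F| (dim (K_A ∩ V) + dim (K_B ∩ V) - dim V + ...)` for some `V` (proved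
with the mean ergodic theorem and summable functions on a tree). Then the approximation theorem of Lück.
-/

set_option autoImplicit false

namespace Pool.Agent.Results.MP_ea75ba_gt.GluingInequality

open Pool.Agent.W907.SG Pool.Agent.W5h83.GT

/-- Let the finite graph `G` have the vertex set `A ∪ B`, without edges between `A \ B` and `B \ A`. For `i ≥ 1` the
`i`-th `ℓ²`-Betti number of the right-angled Coxeter group of `G` is at most the sum of the `i`-th `ℓ²`-Betti numbers
of the right-angled Coxeter groups of the two graphs obtained from `G.induce A` and `G.induce B` by adding a vertex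
adjacent to the elements of `A ∩ B`. -/
theorem result (V : Type) [Fintype V] [LinearOrder V] (G : SimpleGraph V) (A B : Set V) [Fintype ↥A] [Fintype ↥B]
    [LinearOrder (Option ↥A)] [LinearOrder (Option ↥B)] (hAB : A ∪ B = Set.univ)
    (hno : ∀ a ∈ A, a ∉ B → ∀ b ∈ B, b ∉ A → ¬ G.Adj a b) (i : ℕ) (hi : 1 ≤ i) :
    l2b G i ≤ l2b (cone (G.induce A) {a | (a : V) ∈ B}) i + l2b (cone (G.induce B) {b | (b : V) ∈ A}) i := by
  obtain ⟨j, rfl⟩ : ∃ j, i = j + 1 := ⟨i - 1, by omega⟩
  exact l2b_sum G A B hAB hno j

end Pool.Agent.Results.MP_ea75ba_gt.GluingInequality
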