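import Pool.Agent.W5h6.AM.Main

/-!
# Self-improvement of the vanishing above the middle dimension

Q1 asks whether the reduced `ℓ²`-homology of a contractible `n`-manifold with a geometric group action
vanishes above the degree `n / 2`; for manifolds without boundary this is the Singer conjecture. We show
that weak asymptotic forms of these questions, in some dimensions only, imply the full question in all
dimensions.

Complexes are complexes `K` of lattice cubes in `ℝ ^ S` (`Cube`, `space`); every locally finite
simplicial complex with vertex set `S` becomes one by its standard cubical subdivision in `[0, 1] ^ S`,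
and the maps are kept. `GMan n K Γ`: the space of `K` is a contractible `n`-manifold, possibly with
boundary, and the group `Γ` of homeomorphisms permutes the cubes, with finite stabilizers and finitely
many orbits. `Harmonic K i f`: `f` is an `ℓ²` harmonic `i`-chain. The `ℓ²`-Betti numbers are
`l2Betti K Γ R i = ∑ r ∈ R, rho K i r / |Γ_r|`, where `R` is a set of representatives of the orbits of
cubes and `rho K i r` is the squared norm of the projection of the basis chain `r` to the harmonic
`i`-chains; `numCubes K Γ R = ∑ r ∈ R, 1 / |Γ_r|`.

`VanishAbove P n` is the vanishing for the `n`-dimensional members of the class `P`. `Weak P δ n` asks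
only that the `ℓ²`-Betti numbers in the degrees `i ≥ (1 / 2 + δ) n` are at most `δ ^ n` times the number
of the cubes. `WeakFirst P δ i` asks only that the `i`-th `ℓ²`-Betti number of the `(2 i - 1)`-dimensional
members is at most `δ ^ i` times the number of the cubes. Let `P` be closed under products.

* The vanishing in all dimensions is equivalent to: for all `δ > 0` and `d`, `Weak P δ n` holds for some
  multiple `n` of `d`.
* If the interval (with the trivial group) is in `P`, as in Q1, then it is equivalent to: for all
  `δ > 0`, `Weak P δ n` holds for arbitrarily large `n`; and to: for all `δ > 0` and `d`,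
  `WeakFirst P δ i` holds for some multiple `i` of `d`. In particular Q1 follows from Q1 in infinitely
  many dimensions.
* If a surface (a plane with a cocompact action) with a nonzero `ℓ²` harmonic `1`-chain is in `P`, then
  it is equivalent to: for all `δ > 0`, `Weak P δ n` holds for arbitrarily large even `n`.
* The manifolds without boundary form a class which is closed under products.

Method. The product of two `ℓ²` harmonic chains is an `ℓ²` harmonic chain of the product complex, so the
`ℓ²`-Betti numbers of a product are at least the products of the `ℓ²`-Betti numbers, and the numbers of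
the cubes are multiplicative. So one counterexample gives counterexamples to the weak forms in all the
multiples of its dimension; factors which are intervals (or surfaces) fill the gaps.
-/

set_option autoImplicit false

namespace Pool.Agent.Results.MP_ea75ba_gt.SelfImprovement

open Pool.Agent.W5h6.AM

/-- The weak asymptotic forms of Q1 (and of the Singer conjecture) are equivalent to the full form. -/
theorem result :
    (∀ P : GClass, ProdClosed P →
      ((∀ n : ℕ, 1 ≤ n → VanishAbove P n) ↔
        ∀ δ : ℝ, 0 < δ → ∀ d : ℕ, 1 ≤ d → ∃ n : ℕ, 1 ≤ n ∧ d ∣ n ∧ Weak P δ n)) ∧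
    (∀ P : GClass, ProdClosed P → P Unit interval (trivialGroup interval) →
      ((∀ n : ℕ, 1 ≤ n → VanishAbove P n) ↔
        ∀ δ : ℝ, 0 < δ → ∀ N : ℕ, ∃ n : ℕ, N ≤ n ∧ Weak P δ n) ∧
      ((∀ n : ℕ, 1 ≤ n → VanishAbove P n) ↔
        ∀ δ : ℝ, 0 < δ → ∀ d : ℕ, 1 ≤ d → ∃ i : ℕ, 1 ≤ i ∧ d ∣ i ∧ WeakFirst P δ i)) ∧
    (∀ P : GClass, ProdClosed P → HasSurface P →
      ((∀ n : ℕ, 1 ≤ n → VanishAbove P n) ↔
        ∀ δ : ℝ, 0 < δ → ∀ N : ℕ, ∃ n : ℕ, N ≤ n ∧ Even n ∧ Weak P δ n)) ∧
    (∀ (P : GClass) (n : ℕ) (δ : ℝ), 1 ≤ n → 0 < δ → VanishAbove P n → Weak P δ n) ∧
    GMan 1 interval (trivialGroup interval) ∧ ProdClosed NoBoundary :=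
  ⟨fun _ hP => multiples hP, fun _ hP hI => ⟨infinitely_many hP hI, first_degree hP hI⟩,
    fun _ hP hS => even_dims hP hS, fun _ _ _ hn hδ h => weak_of_vanish hn hδ h, gman_interval,
    prodClosed_noBoundary⟩

end Pool.Agent.Results.MP_ea75ba_gt.SelfImprovement
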