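import Pool.Agent.W7h60.OM.Racg6

set_option autoImplicit false

/-!
# Upper bounds for the `ℓ²`-Betti numbers of all right-angled Coxeter groups from systems of states

Let `G` be a finite graph with the flag complex `L`, and let `W` be the right-angled Coxeter group of
`G`. It acts properly and cocompactly on its Davis complex, a contractible cube complex, whose vertices
are the elements of `W` and whose `i`-dimensional cubes are the cosets `w W_T`, where `T` is a clique
with `i` elements. If `L` is a full subcomplex of a flag triangulated `(n-1)`-sphere (or is piecewise
linearly embedded in the `(n-1)`-sphere) then `W` acts properly and cocompactly on a contractible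
`n`-manifold with boundary.

A finite system of states consists of a finite set `X` with involutions `a v`, `v ∈ V`, where `a u`
and `a v` commute if `u`, `v` are adjacent (that is, a finite set with an action of `W`), and of a set
`D x ⊆ V` for every `x ∈ X` such that `v ∈ D (a v x)` if and only if `v ∉ D x`, and
`u ∈ D (a v x)` if and only if `u ∈ D x` if `u`, `v` are adjacent. For example, the systems of moves of
Jankiewicz, Norin and Wise: `X` is the set of all subsets of `V` (or an orbit), `a v` is the symmetric
difference with a fixed set `m v` with `v ∈ m v` and without neighbours of `v`, and `D x = x`.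

We prove that for every finite graph, every finite system of states and every `i`
`b_i^{(2)} (W) ≤ (1 / |X|) ∑_{x ∈ X} dim H̃_{i-1} (L[D x]; ℂ)`,
where `L[A]` is the full subcomplex of `L` on the vertices in `A`.

The system of states gives heights of the vertices of the Davis complex and an action of a subgroup
`K` of finite index on the integers by translations such that the heights are equivariant; the leading
parts of the boundary operators with respect to the heights are the boundary operators of the
augmented chain complexes of the full subcomplexes `L[D x]`.
-/

noncomputable section

namespace Pool.Agent.Results.MP_ea75ba_gt.StateInequality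

open Classical Pool.Agent.W907.SG

/-- The cliques of `G` with `i` elements: the simplices of dimension `i - 1` of the flag complex. -/
abbrev Simplex {V : Type} (G : SimpleGraph V) (i : ℕ) : Type :=
  {T : Finset V // G.IsClique (T : Set V) ∧ T.card = i}

section defs

variable {V : Type} [Fintype V] [LinearOrder V]

/-- The incidence numbers of simplices: `sg t T = (-1)^{#{u ∈ T : u < t}}` if `S` is obtained from `T`
by adding the vertex `t`, and zero if `T` is not a face of `S` of codimension one. -/
def incid (S T : Finset V) : ℂ := ∑ t ∈ S, if S.erase t = T then (sg t T : ℂ) else 0

/-- The conditions for the harmonic chains of the Davis complex. `x (w, T)` is the coefficient of the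
cube `w W_T`, with the orientation given by the corner `w` and the order of `T`; the orientation for
the corner `w t`, `t ∈ T`, is the opposite one. The boundary and the coboundary of `x` vanish. -/
def IsHarmonic (G : SimpleGraph V) (i : ℕ) (x : W G × Simplex G i → ℂ) : Prop :=
  (∀ (w : W G) (T : Simplex G i), ∀ t ∈ T.1, x (w * (cox G).simple t, T) = - x (w, T)) ∧
  (∀ (w : W G) (S : Simplex G (i - 1)), ∑ T : Simplex G i, incid T.1 S.1 * x (w, T) = 0) ∧
  ∀ (w : W G) (U : Simplex G (i + 1)), ∑ t ∈ U.1, ∑ T : Simplex G i,
    (if U.1.erase t = T.1 then (sg t T.1 : ℂ) else 0) *
      (x (w, T) - x (w * (cox G).simple t, T)) = 0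

/-- the space of the `ℓ²` harmonic `i`-chains -/
def harmonic (G : SimpleGraph V) (i : ℕ) : Set (lp (fun _ : W G × Simplex G i => ℂ) 2) :=
  {x | IsHarmonic G i x}

/-- The `i`-th `ℓ²`-Betti number of the right-angled Coxeter group: the von Neumann dimension of the
space of harmonic `i`-chains, a closed invariant subspace of the free Hilbert module with basis the
cliques with `i` elements; it is the sum, over the elements of the basis, of one minus the squared
distance to the subspace. -/
def l2Betti (G : SimpleGraph V) (i : ℕ) : ℝ :=
  ∑ T : Simplex G i, (1 - (Metric.infDist (lp.single 2 ((1 : W G), T) (1 : ℂ) :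
    lp (fun _ : W G × Simplex G i => ℂ) 2) (harmonic G i)) ^ 2)

/-- the simplices with vertices in `A` -/
abbrev SimplexIn (G : SimpleGraph V) (A : Finset V) (i : ℕ) : Type :=
  {T : Simplex G i // T.1 ⊆ A}

/-- The rank of the incidence matrix of the simplices of `L[A]` with `i` and with `j` vertices (the
dimension of the space spanned by its rows). -/
def incRank (G : SimpleGraph V) (A : Finset V) (i j : ℕ) : ℕ :=
  Module.finrank ℂ (Submodule.span ℂ (Set.range
    fun (S : SimplexIn G A i) (T : SimplexIn G A j) => incid S.1.1 T.1.1))

/-- The dimension of the reduced homology of the full subcomplex `L[A]` in degree `i - 1`, with complex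
coefficients: the number of the simplices with `i` vertices (including the empty simplex if `i = 0`)
minus the ranks of the two boundary maps. -/
def redBetti (G : SimpleGraph V) (A : Finset V) (i : ℕ) : ℤ :=
  (Nat.card (SimplexIn G A i) : ℤ) - incRank G A i (i - 1) - incRank G A (i + 1) i

end defs

/-- A system of states for the graph `G`: involutions `a v` of the set `X`, commuting for adjacent
vertices, and sets `D x` of vertices (the directions in which the height decreases). -/
structure StateSystem {V : Type} (G : SimpleGraph V) (X : Type) where
  /-- crossing the wall with the label `v` -/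
  a : V → X → X
  /-- the descending directions -/
  D : X → Finset V
  invol : ∀ v x, a v (a v x) = x
  comm : ∀ u v, G.Adj u v → ∀ x, a u (a v x) = a v (a u x)
  flip : ∀ v x, v ∈ D (a v x) ↔ v ∉ D x
  par : ∀ u v, G.Adj u v → ∀ x, u ∈ D (a v x) ↔ u ∈ D x

open Pool.Agent.W7h60.OM

/-- For every finite graph `G`, every system of states on a finite nonempty set `X` and every `i`, the
`i`-th `ℓ²`-Betti number of the right-angled Coxeter group of `G` is at most the average of the
dimensions of the reduced homology groups in degree `i - 1` of the full subcomplexes `L[D x]` of the
flag complex `L` of `G`. -/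
theorem result (V : Type) [Fintype V] [LinearOrder V] (G : SimpleGraph V) (X : Type) [Fintype X]
    [Nonempty X] (P : StateSystem G X) (i : ℕ) :
    l2Betti G i ≤ (∑ x : X, (redBetti G (P.D x) i : ℝ)) / Fintype.card X := by
  have h1 := Racg.Sys.main (⟨P.a, P.D, P.invol, P.comm, P.flip, P.par⟩ : Racg.Sys G X) i
  have h2 : (0 : ℝ) < Fintype.card X := by exact_mod_cast Fintype.card_pos
  rw [le_div_iff₀ h2, mul_comm]
  exact h1

end Pool.Agent.Results.MP_ea75ba_gt.StateInequality
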